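import Pool.Agent.Lib.MP_25e40f_pr.W.FW

/-!
# MP_25e40f_pr, stream W: the interface: weighted summability at the critical point
-/

set_option autoImplicit false

noncomputable section

open Finset Filter
open scoped ENNReal Classical

namespace IPC

/-- the hypotheses `FWH` at any `p` from the smallness of `q` and the decay of the two point function -/
theorem FWH_of {d N : ℕ} (hd : 87 + 6 * N ≤ d) {p : ℝ} (hp0 : 0 ≤ p) (hp : p ≤ 1 / 2) {q : ℝ≥0∞}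
    (hq : 4000 * q ≤ 1)
    (h4 : ∀ x y, ch4 (mm ((Zg d).pK p) ((Zg d).tK p)) ((Zg d).tK p) ((Zg d).tK p) ((Zg d).tK p) x y ≤ q)
    {C : ℝ} (hC : ∀ x y : Fin d → ℤ, (1 + ‖y - x‖) ^ (d - 10) * (Zg d).tau p x y ≤ C) :
    FWH d N p q (XC d (ENNReal.ofReal C)) := by
  have hC0 : 0 ≤ C := le_trans (mul_nonneg (by positivity)
    (T.tau_nonneg (Zg d) hp0 (by linarith) 0 0)) (hC 0 0)
  exact ⟨hp0, hp, ker_graph (Zg d) hp0 hp h4, hq, EB_of_decay' hd (tK_decay hC0 hC),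
    XC_ne_top d ENNReal.ofReal_ne_top⟩

/-- the same at the critical point, the smallness of `q` below the critical point -/
theorem FWH_pc {d N : ℕ} (hd : 87 + 6 * N ≤ d) (hp0 : 0 < (Zg d).pc) (hp : (Zg d).pc ≤ 1 / 2)
    {q : ℝ≥0∞} (hq : 4000 * q ≤ 1)
    (h4 : ∀ p, 0 ≤ p → p < (Zg d).pc → ∀ x y,
      ch4 (mm ((Zg d).pK p) ((Zg d).tK p)) ((Zg d).tK p) ((Zg d).tK p) ((Zg d).tK p) x y ≤ q)
    {C : ℝ} (hC : ∀ x y : Fin d → ℤ, (1 + ‖y - x‖) ^ (d - 10) * (Zg d).tau (Zg d).pc x y ≤ C) :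
    FWH d N (Zg d).pc q (XC d (ENNReal.ofReal C)) :=
  FWH_of hd hp0.le hp hq (q4_left (Zg d) hp0 (by linarith) (p₀ := 0) hp0 fun p' h0 _ h1 => h4 p' h0 h1) hC

/-- **(Z1)** for nonempty finite start sets -/
theorem FW_one {d N : ℕ} {p : ℝ} {q X : ℝ≥0∞} (H : FWH d N p q X) (F : Finset (Fin d → ℤ))
    (hF : F.Nonempty) : ∑' n, ∑' u, ENNReal.ofReal ((1 + ‖u‖) ^ (2 * N)) * ZZ (Zg d) p n F Set.univ u < ⊤ :=
  H.z1_lt_top hF

/-- **(Z2)** for a start vertex `w` and a finite set `A` -/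
theorem FW_two {d N : ℕ} {p : ℝ} {q X : ℝ≥0∞} (H : FWH d N p q X) (w : Fin d → ℤ)
    (A : Finset (Fin d → ℤ)) :
    ∑' n, ∑' u, ENNReal.ofReal ((1 + ‖u‖) ^ (2 * N)) * ZZ (Zg d) p n {w} (A : Set (Fin d → ℤ)) u < ⊤ :=
  H.z2_lt_top w A

end IPC
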