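import Pool.Agent.Lib.MP_25e40f_pr.W.Kpc
import Pool.Agent.Lib.MP_25e40f_pr.E.ZDefs
import Pool.Agent.Lib.MP_25e40f_pr.E.ZDe
import Pool.Agent.Lib.MP_25e40f_pr.DP.Pcq
import Pool.Agent.Lib.MP_25e40f_pr.D.Defs
import Pool.Agent.Lib.MP_25e40f_pr.IfU

/-!
# MP_25e40f_pr, stream W: the output of the bootstrap on `ℤᵈ` (interface of stream E)
-/

set_option autoImplicit false

noncomputable section

open Finset Filter
open scoped ENNReal Classical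

namespace IPC

/-- the output of the bootstrap on `ℤⁿ × H`, all three quantities -/
def BootS (n₀ : ℕ) (C₀ : ℝ) : Prop := ∀ n, n₀ ≤ n → ∀ (ι : Type) [Fintype ι]
    [DecidableEq ι] [Nonempty ι] (H : SimpleGraph ι),
    (∀ i, (Finset.univ.filter fun j => H.Adj i j).card ≤ 2) →
    ∀ p : ℝ, 0 ≤ p → p < (Wg n ι H).pc → p ≤ 1 / 2 →
      2 * n * p ≤ 1 + C₀ / Real.sqrt n ∧ BS.Sml n ι H p (ENNReal.ofReal (C₀ / Real.sqrt n))

theorem boot_of_bootS {n₀ : ℕ} {C₀ : ℝ} (h : BootS n₀ C₀) : DP.Boot n₀ C₀ := by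
  intro n hn ι _ _ _ H hH p h0 hp h2
  obtain ⟨h3, h4⟩ := h n hn ι H hH p h0 hp h2
  refine ⟨h3, ?_⟩
  unfold DP.Qt ksup
  refine iSup_le fun x => iSup_le fun y => ?_
  have h5 := h4.q x y
  unfold ch4 at h5
  rw [mm_assoc] at h5
  exact h5

section transport

variable {V V' : Type} (e : V ≃ V')

/-- `f'` is the kernel `f` transported by `e` -/
def Trk (f : V → V → ℝ≥0∞) (f' : V' → V' → ℝ≥0∞) : Prop := ∀ x y, f' (e x) (e y) = f x y

variable {e}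

theorem Trk.mm {f g : V → V → ℝ≥0∞} {f' g' : V' → V' → ℝ≥0∞} (hf : Trk e f f')
    (hg : Trk e g g') : Trk e (mm f g) (mm f' g') := by
  intro x y
  unfold IPC.mm
  rw [← Equiv.tsum_eq e]
  exact tsum_congr fun z => by rw [hf, hg]

theorem Trk.wt {f g : V → V → ℝ≥0∞} {f' g' : V' → V' → ℝ≥0∞} (hf : Trk e f f')
    (hg : Trk e g g') : Trk e (wt f g) (wt f' g') := by
  intro x y
  rw [wt_apply, wt_apply, hf, hg]

theorem Trk.ch4 {a b c d : V → V → ℝ≥0∞} {a' b' c' d' : V' → V' → ℝ≥0∞} (ha : Trk e a a')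
    (hb : Trk e b b') (hc : Trk e c c') (hd : Trk e d d') : Trk e (ch4 a b c d) (ch4 a' b' c' d') :=
  ha.mm (hb.mm (hc.mm hd))

end transport

/-- `ℤᵈ = ℤᵈ × {point}` -/
def eW (d : ℕ) : (Fin d → ℤ) ≃ (Fin d → ℤ) × Unit where
  toFun x := (x, ())
  invFun x := x.1
  left_inv _ := rfl
  right_inv _ := rfl

theorem Trk_tK (d : ℕ) {p : ℝ} (h0 : 0 ≤ p) (h1 : p ≤ 1) :
    Trk (eW d) ((Zg d).tK p) ((Wg d Unit ⊥).tK p) := by
  intro x y
  unfold PG.tK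
  rw [← DP.tau_W1 d h0 h1]
  rfl

theorem Trk_pK (d : ℕ) (p : ℝ) : Trk (eW d) ((Zg d).pK p) ((Wg d Unit ⊥).pK p) := by
  intro x y
  unfold PG.pK
  by_cases h : y ∈ (Zg d).nb x
  · rw [if_pos h, if_pos]
    exact (DP.W1_nb d x y).2 h
  · rw [if_neg h, if_neg]
    exact fun h' => h ((DP.W1_nb d x y).1 h')

theorem Trk_w2 (d : ℕ) : Trk (eW d) (Fo.wz d) (BS.w2 (n := d) (ι := Unit)) := by
  intro x y
  unfold Fo.wz BS.w2
  rw [kt_apply]
  congr 1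
  refine Finset.sum_congr rfl fun i _ => ?_
  change (((x i - y i : ℤ) : ℝ)) ^ 2 = (((y - x) i : ℤ) : ℝ) ^ 2
  rw [Pi.sub_apply]
  push_cast
  ring

theorem q4_Z {d : ℕ} {p : ℝ} {δ : ℝ≥0∞} (h0 : 0 ≤ p) (h1 : p ≤ 1) (h : BS.Sml d Unit ⊥ p δ)
    (x y : Fin d → ℤ) :
    ch4 (mm ((Zg d).pK p) ((Zg d).tK p)) ((Zg d).tK p) ((Zg d).tK p) ((Zg d).tK p) x y ≤ δ := by
  have t := Trk_tK d h0 h1
  rw [← (((Trk_pK d p).mm t).ch4 t t t) x y]
  exact h.q _ _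

theorem d0_Z {d : ℕ} {p : ℝ} {δ : ℝ≥0∞} (h0 : 0 ≤ p) (h1 : p ≤ 1) (h : BS.Sml d Unit ⊥ p δ)
    (x y : Fin d → ℤ) :
    ch4 (wt (Fo.wz d) (mm ((Zg d).pK p) ((Zg d).tK p))) ((Zg d).tK p) ((Zg d).tK p) ((Zg d).tK p)
      x y ≤ δ := by
  have t := Trk_tK d h0 h1
  rw [← (((Trk_w2 d).wt ((Trk_pK d p).mm t)).ch4 t t t) x y]
  exact h.d0 _ _

theorem d1_Z {d : ℕ} {p : ℝ} {δ : ℝ≥0∞} (h0 : 0 ≤ p) (h1 : p ≤ 1) (h : BS.Sml d Unit ⊥ p δ)
    (x y : Fin d → ℤ) :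
    ch4 ((Zg d).tK p) (wt (Fo.wz d) (mm ((Zg d).pK p) ((Zg d).tK p))) ((Zg d).tK p) ((Zg d).tK p)
      x y ≤ δ := by
  have t := Trk_tK d h0 h1
  rw [← (t.ch4 ((Trk_w2 d).wt ((Trk_pK d p).mm t)) t t) x y]
  exact h.d1 _ _

theorem Glue_nrm_neg {n : ℕ} (x : Fin n → ℤ) : nrm (-x) = nrm x := by
  unfold nrm
  congr 1
  funext i
  exact Int.natAbs_neg (x i)

theorem Glue_norm {n : ℕ} (x : Fin n → ℤ) : ‖x‖ = nrm x := by
  apply le_antisymm
  · rw [pi_norm_le_iff_of_nonneg (Nat.cast_nonneg _)]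
    intro i
    rw [Int.norm_eq_abs]
    have h : (x i).natAbs ≤ nrm x :=
      Finset.le_sup (f := fun i => (x i).natAbs) (Finset.mem_univ i)
    have h2 : (((x i).natAbs : ℕ) : ℝ) ≤ nrm x := by exact_mod_cast h
    rwa [Nat.cast_natAbs, Int.cast_abs] at h2
  · rcases Nat.eq_zero_or_pos n with rfl | hn
    · have : nrm x = 0 := by
        unfold nrm
        apply Nat.le_zero.1
        apply Finset.sup_le
        intro i _
        exact i.elim0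
      rw [this]
      simp
    · obtain ⟨i, _, hi⟩ := Finset.exists_mem_eq_sup Finset.univ ⟨⟨0, hn⟩, Finset.mem_univ _⟩
        fun i => (x i).natAbs
      unfold nrm
      rw [hi, Nat.cast_natAbs, Int.cast_abs]
      have := norm_le_pi_norm x i
      rwa [Int.norm_eq_abs] at this

/-- **the inputs of stream E** -/
theorem exists_DB {n₀ : ℕ} {C₀ : ℝ} (hB : BootS n₀ C₀) : ∃ d₀ : ℕ, ∀ d, d₀ ≤ d → ∃ δ : ℝ≥0∞,
    Fo.DB d δ ∧ Ker (CE.tK (Zg d) (Zg d).pc) (CE.pK (Zg d) (Zg d).pc) δ := by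
  obtain ⟨n₁, hn₁, hG⟩ := DP.exists_good (boot_of_bootS hB)
  obtain ⟨N, hN⟩ := exists_nat_ge ((100000 * |C₀|) ^ 2)
  refine ⟨max (max n₁ 450) (max n₀ N), fun d hd => ⟨ENNReal.ofReal (C₀ / Real.sqrt d), ?_⟩⟩
  have hd1 : n₁ ≤ d := le_trans (le_trans (le_max_left _ _) (le_max_left _ _)) hd
  have hd2 : 450 ≤ d := le_trans (le_trans (le_max_right _ _) (le_max_left _ _)) hd
  have hd3 : n₀ ≤ d := le_trans (le_trans (le_max_left _ _) (le_max_right _ _)) hd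
  have hd4 : N ≤ d := le_trans (le_trans (le_max_right _ _) (le_max_right _ _)) hd
  have hdpos : (0 : ℝ) < d := by exact_mod_cast (by omega : 0 < d)
  have hsq : 0 < Real.sqrt d := Real.sqrt_pos.2 hdpos
  have hC : 100000 * |C₀| ≤ Real.sqrt d := by
    rw [show (100000 * |C₀| : ℝ) = Real.sqrt ((100000 * |C₀|) ^ 2) from
      (Real.sqrt_sq (by positivity)).symm]
    refine Real.sqrt_le_sqrt (hN.trans ?_)
    exact_mod_cast hd4
  have hsm : 100000 * (C₀ / Real.sqrt d) ≤ 1 := by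
    rw [← mul_div_assoc, div_le_one hsq]
    exact le_trans (mul_le_mul_of_nonneg_left (le_abs_self _) (by norm_num)) hC
  have hle : (Zg d).pc ≤ 1 / 4 := DP.pcZ_le hG hd1
  have hlt : 1 / (4 * (d : ℝ)) < (Zg d).pc := Fo.pc_lt (by omega)
  have hpos : 0 < (Zg d).pc := lt_trans (by positivity) hlt
  have hS : ∀ p, 0 ≤ p → p < (Zg d).pc → 2 * d * p ≤ 1 + C₀ / Real.sqrt d ∧
      BS.Sml d Unit ⊥ p (ENNReal.ofReal (C₀ / Real.sqrt d)) := by
    intro p h0 h1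
    refine hB d hd3 Unit ⊥ (fun i => ?_) p h0 (by rw [DP.pc_W1]; exact h1) (by linarith)
    simp
  have hU : DP.Uniq d := fun p h0 h1 h => uniqueness d (by omega) p h0 h1 h
  have hq : ∀ p, 0 ≤ p → p < (Zg d).pc → ∀ x y, ch4 (mm ((Zg d).pK p) ((Zg d).tK p))
      ((Zg d).tK p) ((Zg d).tK p) ((Zg d).tK p) x y ≤ ENNReal.ofReal (C₀ / Real.sqrt d) :=
    fun p h0 h1 x y => q4_Z h0 (by linarith) (hS p h0 h1).2 x y
  refine ⟨⟨hd2, ?_, hlt, hle, ?_, ?_, hq, ?_, ?_, ?_⟩, ?_⟩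
  · calc 100000 * ENNReal.ofReal (C₀ / Real.sqrt d)
        = ENNReal.ofReal (100000 * (C₀ / Real.sqrt d)) := by
          rw [ENNReal.ofReal_mul (by norm_num)]
          norm_num
      _ ≤ ENNReal.ofReal 1 := ENNReal.ofReal_le_ofReal hsm
      _ = 1 := ENNReal.ofReal_one
  · intro p h0 h1
    exact (Zg d).noPerc_anti h0 h1 (by linarith) (DP.noPerc_pc hG hd1 hU)
  · intro p h0 h1
    have h2 := (hS p h0 h1).1
    linarith
  · exact fun p h0 h1 x y => d0_Z h0 (by linarith) (hS p h0 h1).2 x y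
  · intro p h0 h1
    obtain ⟨C, c, _, hc, h2⟩ := decay_Z d (by omega) p h0 h1 (by linarith)
    refine ⟨C, c, hc, fun x => ?_⟩
    have h3 := h2 0 x
    rw [zero_sub, Glue_nrm_neg, ← Glue_norm] at h3
    exact h3
  · exact chi_top d (by omega) (by linarith)
  · exact Ker_pc (Zg d) hpos (by linarith) hq

end IPC
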