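import Pool.Agent.Lib.MP_25e40f_pr.W.Wts
import Pool.Agent.Lib.MP_25e40f_pr.E.MmtC

/-!
# MP_25e40f_pr, stream W: convolutions of functions with polynomial decay
-/

set_option autoImplicit false

noncomputable section

open Finset Filter
open scoped ENNReal Classical

namespace IPC

variable {d : ℕ}

theorem wn_pow (N : ℕ) (x : Fin d → ℤ) : wn d N x = wn d 1 x ^ N := by
  unfold wn
  rw [pow_one, ENNReal.ofReal_pow (by positivity)]

theorem wn_one_mul (x z : Fin d → ℤ) : wn d 1 x ≤ wn d 1 z * wn d 1 (x - z) := by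
  unfold wn
  rw [← ENNReal.ofReal_mul (by positivity), pow_one, pow_one, pow_one]
  refine ENNReal.ofReal_le_ofReal ?_
  have := norm_add_le z (x - z)
  rw [add_sub_cancel] at this
  nlinarith [norm_nonneg z, norm_nonneg (x - z)]

/-- the function `(1 + |x|)^(-s)` -/
def dn (d s : ℕ) : (Fin d → ℤ) → ℝ≥0∞ := fun x => (wn d s x)⁻¹

theorem dn_pow (s : ℕ) (x : Fin d → ℤ) : dn d s x = (wn d 1 x)⁻¹ ^ s := by
  rw [dn, wn_pow, ENNReal.inv_pow]

theorem dn_anti {s t : ℕ} (h : s ≤ t) (x : Fin d → ℤ) : dn d t x ≤ dn d s x :=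
  ENNReal.inv_le_inv.2 (wn_mono h x)

theorem wn_mul_dn {N s : ℕ} (h : N ≤ s) (x : Fin d → ℤ) : wn d N x * dn d s x = dn d (s - N) x := by
  obtain ⟨t, rfl⟩ := Nat.exists_eq_add_of_le h
  rw [Nat.add_sub_cancel_left, dn, wn_add, ENNReal.mul_inv (Or.inr (wn_ne_top t x)) (Or.inl (wn_ne_top N x)),
    ← mul_assoc, ENNReal.mul_inv_cancel ?_ (wn_ne_top N x), one_mul, dn]
  exact (lt_of_lt_of_le one_pos (one_le_wn N x)).ne'

/-- `∑ (1 + |x|)^(-(d+1))` -/
def Sd (d : ℕ) : ℝ≥0∞ := ∑' x, dn d (d + 1) x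

theorem Sd_ne_top (d : ℕ) : Sd d ≠ ∞ := by
  have h : Sd d = ∑' x : Fin d → ℤ, ENNReal.ofReal ((1 + ‖x‖) ^ (d + 1))⁻¹ := by
    refine tsum_congr fun x => ?_
    rw [dn, wn, ENNReal.ofReal_inv_of_pos (by positivity)]
  rw [h]
  exact (Fo.summable_inv d).tsum_ofReal_ne_top

theorem dn_mul_le {a b m : ℕ} (ha : m ≤ a) (hb : m ≤ b) (hm : d + 1 + 2 * m ≤ a + b)
    (x z : Fin d → ℤ) :
    dn d a z * dn d b (x - z) ≤ dn d m x * (dn d (d + 1) z + dn d (d + 1) (x - z)) := by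
  obtain ⟨a', rfl⟩ := Nat.exists_eq_add_of_le ha
  obtain ⟨b', rfl⟩ := Nat.exists_eq_add_of_le hb
  have hab : d + 1 ≤ a' + b' := by omega
  have hX : dn d m z * dn d m (x - z) ≤ dn d m x := by
    rw [dn, dn, dn, ← ENNReal.mul_inv (Or.inr (wn_ne_top _ _)) (Or.inl (wn_ne_top _ _)),
      ENNReal.inv_le_inv, wn_pow m x, wn_pow m z, wn_pow m (x - z), ← mul_pow]
    exact pow_le_pow_left' (wn_one_mul x z) m
  have hs : ∀ (s t : ℕ) (y : Fin d → ℤ), dn d (s + t) y = dn d s y * dn d t y := fun s t y => by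
    rw [dn_pow, dn_pow, dn_pow, pow_add]
  have hY : dn d a' z * dn d b' (x - z) ≤ dn d (d + 1) z + dn d (d + 1) (x - z) := by
    rcases le_total (wn d 1 z) (wn d 1 (x - z)) with h | h
    · refine le_trans ?_ le_self_add
      calc dn d a' z * dn d b' (x - z) ≤ dn d a' z * dn d b' z := by
            refine mul_le_mul' le_rfl ?_
            rw [dn_pow, dn_pow]
            exact pow_le_pow_left' (ENNReal.inv_le_inv.2 h) b'
        _ = dn d (a' + b') z := (hs _ _ _).symm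
        _ ≤ dn d (d + 1) z := dn_anti hab z
    · refine le_trans ?_ le_add_self
      calc dn d a' z * dn d b' (x - z) ≤ dn d a' (x - z) * dn d b' (x - z) := by
            refine mul_le_mul' ?_ le_rfl
            rw [dn_pow, dn_pow]
            exact pow_le_pow_left' (ENNReal.inv_le_inv.2 h) a'
        _ = dn d (a' + b') (x - z) := (hs _ _ _).symm
        _ ≤ dn d (d + 1) (x - z) := dn_anti hab _
  rw [hs, hs]
  calc dn d m z * dn d a' z * (dn d m (x - z) * dn d b' (x - z))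
      = (dn d m z * dn d m (x - z)) * (dn d a' z * dn d b' (x - z)) := by ring
    _ ≤ _ := mul_le_mul' hX hY

theorem conv_dn {a b m : ℕ} (ha : m ≤ a) (hb : m ≤ b) (hm : d + 1 + 2 * m ≤ a + b)
    (x : Fin d → ℤ) : ∑' z, dn d a z * dn d b (x - z) ≤ 2 * Sd d * dn d m x := by
  calc ∑' z, dn d a z * dn d b (x - z)
      ≤ ∑' z, dn d m x * (dn d (d + 1) z + dn d (d + 1) (x - z)) :=
        ENNReal.tsum_le_tsum fun z => dn_mul_le ha hb hm x z
    _ = dn d m x * (Sd d + ∑' z, dn d (d + 1) (x - z)) := by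
        rw [ENNReal.tsum_mul_left, ENNReal.tsum_add, Sd]
    _ = dn d m x * (Sd d + Sd d) := by
        congr 2
        rw [Sd, ← Equiv.tsum_eq (Equiv.subLeft x)]
        refine tsum_congr fun z => ?_
        rw [Equiv.subLeft_apply, sub_sub_cancel]
    _ = 2 * Sd d * dn d m x := by ring

/-- products of kernels with polynomial decay -/
theorem mm_dn {a b m : ℕ} (ha : m ≤ a) (hb : m ≤ b) (hm : d + 1 + 2 * m ≤ a + b)
    {k l : (Fin d → ℤ) → (Fin d → ℤ) → ℝ≥0∞} {A B : ℝ≥0∞} (hk : ∀ x y, k x y ≤ A * kt (dn d a) x y)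
    (hl : ∀ x y, l x y ≤ B * kt (dn d b) x y) (x y : Fin d → ℤ) :
    mm k l x y ≤ (A * B * (2 * Sd d)) * kt (dn d m) x y := by
  calc mm k l x y ≤ mm (fun x y => A * kt (dn d a) x y) (fun x y => B * kt (dn d b) x y) x y :=
        mm_mono hk hl x y
    _ = A * B * mm (kt (dn d a)) (kt (dn d b)) x y := by
        unfold mm
        rw [← ENNReal.tsum_mul_left]
        exact tsum_congr fun z => by ring
    _ ≤ A * B * (2 * Sd d * kt (dn d m) x y) := by
        refine mul_le_mul' le_rfl ?_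
        rw [mm_kt]
        exact conv_dn ha hb hm (y - x)
    _ = _ := by ring

end IPC
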