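import Pool.Agent.Lib.MP_25e40f_pr.W.Dec

/-!
# MP_25e40f_pr, stream W: the chain bounds with two weights from the pointwise decay of the two point function
-/

set_option autoImplicit false

noncomputable section

open Finset Filter
open scoped ENNReal Classical

namespace IPC

variable {d : ℕ}

/-- the constant of the chain bounds -/
def XC (d : ℕ) (C : ℝ≥0∞) : ℝ≥0∞ := C * (C * (C * C * (2 * Sd d)) * (2 * Sd d)) * (2 * Sd d)

theorem XC_ne_top (d : ℕ) {C : ℝ≥0∞} (hC : C ≠ ∞) : XC d C ≠ ∞ := by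
  have := Sd_ne_top d
  unfold XC
  finiteness

theorem EB_of_decay {s N m₁ m₂ : ℕ} (hN : N ≤ s) (h1 : m₁ ≤ s) (h1' : d + 1 + 2 * m₁ ≤ s + s)
    (h2 : m₂ ≤ s - N) (h2' : m₂ ≤ m₁) (h2'' : d + 1 + 2 * m₂ ≤ (s - N) + m₁)
    (h3 : d + 1 ≤ (s - N) + m₂) {ta : (Fin d → ℤ) → (Fin d → ℤ) → ℝ≥0∞} {C : ℝ≥0∞}
    (hτ : ∀ x y, ta x y ≤ C * kt (dn d s) x y) :
    EB ta (kt (wn d N)) (kt (wn d N)) (XC d C) := by
  have e1 : ∀ x y : Fin d → ℤ, kt (fun x => C * dn d s x) x y ≤ C * kt (dn d s) x y :=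
    fun x y => le_rfl
  have e2 : ∀ x y : Fin d → ℤ, wt (kt (wn d N)) (kt fun x => C * dn d s x) x y ≤
      C * kt (dn d (s - N)) x y := by
    intro x y
    rw [wt_apply, kt_apply, kt_apply, kt_apply, mul_left_comm, wn_mul_dn hN]
  have e3 : ∀ x y : Fin d → ℤ, kt (fun x => C * dn d s x) x y ≤
      wt (kt (wn d N)) (kt fun x => C * dn d s x) x y := by
    intro x y
    rw [wt_apply]
    calc kt (fun x => C * dn d s x) x y = 1 * kt (fun x => C * dn d s x) x y := (one_mul _).symm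
      _ ≤ _ := mul_le_mul' (one_le_wn N _) le_rfl
  have hfg : ∀ x y : Fin d → ℤ, ch4 (wt (kt (wn d N)) (kt fun x => C * dn d s x))
      (wt (kt (wn d N)) (kt fun x => C * dn d s x)) (kt fun x => C * dn d s x)
      (kt fun x => C * dn d s x) x y ≤ XC d C := by
    intro x y
    have a1 := mm_dn h1 h1 h1' e1 e1
    have a2 := mm_dn h2 h2' h2'' e2 a1
    have a3 := mm_dn (Nat.zero_le _) (Nat.zero_le _) (m := 0) (by omega) e2 a2 x y
    refine a3.trans ?_
    rw [kt_apply, dn, wn, pow_zero, ENNReal.ofReal_one, inv_one, mul_one, XC]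
  refine EB_of_kt (W := fun x => C * dn d s x) (fun x y => hτ x y) (fun x y => ?_)
    (fun x y => ?_) (fun x y => ?_) hfg
  · exact (ch4_mono e3 e3 (fun _ _ => le_rfl) (fun _ _ => le_rfl) x y).trans (hfg x y)
  · exact (ch4_mono (fun _ _ => le_rfl) e3 (fun _ _ => le_rfl) (fun _ _ => le_rfl) x y).trans
      (hfg x y)
  · exact (ch4_mono (fun _ _ => le_rfl) e3 (fun _ _ => le_rfl) (fun _ _ => le_rfl) x y).trans
      (hfg x y)

/-- the exponents for `s = d - 10` -/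
theorem EB_of_decay' {N : ℕ} (hd : 87 + 6 * N ≤ d)
    {ta : (Fin d → ℤ) → (Fin d → ℤ) → ℝ≥0∞} {C : ℝ≥0∞}
    (hτ : ∀ x y, ta x y ≤ C * kt (dn d (d - 10)) x y) :
    EB ta (kt (wn d N)) (kt (wn d N)) (XC d C) :=
  EB_of_decay (s := d - 10) (m₁ := (d - 21) / 2) (m₂ := N + 11) (by omega) (by omega) (by omega)
    (by omega) (by omega) (by omega) (by omega) hτ

/-- real form of the decay -/
theorem tK_decay {p : ℝ} {s : ℕ} {C : ℝ} (hC : 0 ≤ C)
    (h : ∀ x y : Fin d → ℤ, (1 + ‖y - x‖) ^ s * (Zg d).tau p x y ≤ C) (x y : Fin d → ℤ) :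
    (Zg d).tK p x y ≤ ENNReal.ofReal C * kt (dn d s) x y := by
  rw [kt_apply, dn, wn, PG.tK, ← ENNReal.ofReal_inv_of_pos (by positivity),
    ← ENNReal.ofReal_mul hC]
  refine ENNReal.ofReal_le_ofReal ?_
  rw [← div_eq_mul_inv, le_div_iff₀ (by positivity), mul_comm]
  exact h x y

end IPC
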