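import Pool.Agent.Lib.MP_25e40f_pr.W.Mon
import Pool.Agent.Lib.MP_25e40f_pr.C.EFin
import Pool.Agent.Lib.MP_25e40f_pr.T.Pos
import Pool.Agent.Lib.MP_25e40f_pr.T.Iso
import Pool.Agent.Lib.MP_25e40f_pr.T.Hs

/-!
# MP_25e40f_pr, stream W: passage to the critical point from the left
-/

set_option autoImplicit false

noncomputable section

open Finset Filter
open scoped ENNReal Classical

namespace IPC

variable {V : Type} [DecidableEq V] (G : PG V)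

theorem tK_mono_p {p q : ℝ} (hp0 : 0 ≤ p) (hpq : p ≤ q) (hq : q ≤ 1) (x y : V) :
    G.tK p x y ≤ G.tK q x y :=
  ENNReal.ofReal_le_ofReal (T.tau_mono_p G hp0 hpq hq x y)

theorem pK_mono_p {p q : ℝ} (hpq : p ≤ q) (x y : V) : G.pK p x y ≤ G.pK q x y := by
  unfold PG.pK
  split_ifs
  · exact ENNReal.ofReal_le_ofReal hpq
  · exact le_rfl

theorem tK_KMono {p : ℝ} (hp1 : p ≤ 1) {s : ℕ → ℝ} (hs : Monotone s) (h0 : ∀ j, 0 ≤ s j)
    (h1 : ∀ j, s j < p) : KMono fun j => G.tK (s j) :=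
  fun x y _ j hij => tK_mono_p G (h0 _) (hs hij) ((h1 j).le.trans hp1) x y

theorem pK_KMono {s : ℕ → ℝ} (hs : Monotone s) : KMono fun j => G.pK (s j) :=
  fun x y _ _ hij => pK_mono_p G (hs hij) x y

theorem tK_ksupr {p : ℝ} (hp0 : 0 < p) (hp1 : p ≤ 1) {s : ℕ → ℝ} (hs : Monotone s)
    (h0 : ∀ j, 0 ≤ s j) (h1 : ∀ j, s j < p) (ht : Tendsto s atTop (nhds p)) :
    G.tK p = ksupr fun j => G.tK (s j) := by
  funext x y
  unfold ksupr
  have hm : Monotone fun j => G.tK (s j) x y := tK_KMono G hp1 hs h0 h1 x y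
  refine (iSup_eq_of_tendsto hm ?_).symm
  have h2 : Tendsto s atTop (nhdsWithin p (Set.Iio p)) :=
    tendsto_nhdsWithin_iff.2 ⟨ht, Eventually.of_forall h1⟩
  have h3 := (T.tau_leftcont G hp0 hp1 x y).comp h2
  exact (ENNReal.continuous_ofReal.tendsto _).comp h3

theorem pK_ksupr {p : ℝ} {s : ℕ → ℝ} (hs : Monotone s) (ht : Tendsto s atTop (nhds p)) :
    G.pK p = ksupr fun j => G.pK (s j) := by
  funext x y
  unfold ksupr
  have hm : Monotone fun j => G.pK (s j) x y := pK_KMono G hs x y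
  refine (iSup_eq_of_tendsto hm ?_).symm
  unfold PG.pK
  by_cases h : y ∈ G.nb x
  · simp only [if_pos h]
    exact (ENNReal.continuous_ofReal.tendsto _).comp ht
  · simp only [if_neg h]
    exact tendsto_const_nhds

/-- bounds of the chain `P τ τ τ τ` pass to the limit from the left -/
theorem q4_left {p : ℝ} (hp0 : 0 < p) (hp1 : p ≤ 1) {p₀ : ℝ} (hp₀ : p₀ < p) {q : ℝ≥0∞}
    (h : ∀ p', 0 ≤ p' → p₀ ≤ p' → p' < p → ∀ x y,
      ch4 (mm (G.pK p') (G.tK p')) (G.tK p') (G.tK p') (G.tK p') x y ≤ q) (x y : V) :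
    ch4 (mm (G.pK p) (G.tK p)) (G.tK p) (G.tK p) (G.tK p) x y ≤ q := by
  obtain ⟨s, hs, hs1, ht⟩ := exists_seq_strictMono_tendsto' (show max 0 p₀ < p from max_lt hp0 hp₀)
  have h0 : ∀ j, 0 ≤ s j := fun j => (le_max_left 0 p₀).trans (hs1 j).1.le
  have h00 : ∀ j, p₀ ≤ s j := fun j => (le_max_right 0 p₀).trans (hs1 j).1.le
  have h1 : ∀ j, s j < p := fun j => (hs1 j).2
  rw [tK_ksupr G hp0 hp1 hs.monotone h0 h1 ht, pK_ksupr G hs.monotone ht,
    mm_ksupr (pK_KMono G hs.monotone) (tK_KMono G hp1 hs.monotone h0 h1)]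
  exact ch4_ksupr_le ((pK_KMono G hs.monotone).mm (tK_KMono G hp1 hs.monotone h0 h1))
    (tK_KMono G hp1 hs.monotone h0 h1) (tK_KMono G hp1 hs.monotone h0 h1)
    (tK_KMono G hp1 hs.monotone h0 h1) (fun j => h (s j) (h0 j) (h00 j) (h1 j)) x y

/-- the two point function at `p` is a kernel in the sense of C/Kalg.lean if the bound holds for all smaller `p` -/
theorem Ker_left {p : ℝ} (hp0 : 0 < p) (hp : p ≤ 1 / 2) {p₀ : ℝ} (hp₀ : p₀ < p) {q : ℝ≥0∞}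
    (h : ∀ p', 0 ≤ p' → p₀ ≤ p' → p' < p → ∀ x y,
      ch4 (mm (G.pK p') (G.tK p')) (G.tK p') (G.tK p') (G.tK p') x y ≤ q) :
    Ker (G.tK p) (G.pK p) q :=
  ker_graph G hp0.le hp (q4_left G hp0 (by linarith) hp₀ h)

/-- at the critical point -/
theorem Ker_pc (hp0 : 0 < G.pc) (hp : G.pc ≤ 1 / 2) {q : ℝ≥0∞}
    (h : ∀ p, 0 ≤ p → p < G.pc → ∀ x y,
      ch4 (mm (G.pK p) (G.tK p)) (G.tK p) (G.tK p) (G.tK p) x y ≤ q) :
    Ker (G.tK G.pc) (G.pK G.pc) q :=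
  Ker_left G hp0 hp (p₀ := 0) hp0 fun p' h0 _ h1 => h p' h0 h1

/-- the chain bounds with two weights pass to the limit from the left -/
theorem EB_left {p : ℝ} (hp0 : 0 < p) (hp1 : p ≤ 1) {p₀ : ℝ} (hp₀ : p₀ < p)
    {f g : V → V → ℝ≥0∞} {X : ℝ≥0∞} (h : ∀ p', 0 ≤ p' → p₀ ≤ p' → p' < p → EB (G.tK p') f g X) :
    EB (G.tK p) f g X := by
  obtain ⟨s, hs, hs1, ht⟩ := exists_seq_strictMono_tendsto' (show max 0 p₀ < p from max_lt hp0 hp₀)
  have h0 : ∀ j, 0 ≤ s j := fun j => (le_max_left 0 p₀).trans (hs1 j).1.le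
  have h00 : ∀ j, p₀ ≤ s j := fun j => (le_max_right 0 p₀).trans (hs1 j).1.le
  have h1 : ∀ j, s j < p := fun j => (hs1 j).2
  rw [tK_ksupr G hp0 hp1 hs.monotone h0 h1 ht]
  exact EB_ksupr (tK_KMono G hp1 hs.monotone h0 h1) fun j => h (s j) (h0 j) (h00 j) (h1 j)

/-- pointwise bounds of the two point function pass to the limit from the left -/
theorem tau_left_le {p : ℝ} (hp0 : 0 < p) (hp1 : p ≤ 1) {p₀ : ℝ} (hp₀ : p₀ < p) {x y : V} {C : ℝ}
    (h : ∀ p', 0 ≤ p' → p₀ ≤ p' → p' < p → G.tau p' x y ≤ C) : G.tau p x y ≤ C := by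
  obtain ⟨s, hs, hs1, ht⟩ := exists_seq_strictMono_tendsto' (show max 0 p₀ < p from max_lt hp0 hp₀)
  have h2 : Tendsto s atTop (nhdsWithin p (Set.Iio p)) :=
    tendsto_nhdsWithin_iff.2 ⟨ht, Eventually.of_forall fun j => (hs1 j).2⟩
  exact le_of_tendsto ((T.tau_leftcont G hp0 hp1 x y).comp h2) (Eventually.of_forall fun j =>
    h (s j) ((le_max_left 0 p₀).trans (hs1 j).1.le) ((le_max_right 0 p₀).trans (hs1 j).1.le) (hs1 j).2)

end IPC
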