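import Pool.Agent.Lib.MP_25e40f_pr.W.EBz
import Pool.Agent.Lib.MP_25e40f_pr.W.Kpc

/-!
# MP_25e40f_pr, stream W: weighted summability of the coefficients `Z_n(F, A; u)` on `ℤᵈ`
-/

set_option autoImplicit false

noncomputable section

open Finset Filter
open scoped ENNReal Classical

namespace IPC

theorem tsum_of_two_pow {a : ℕ → ℝ≥0∞} {C : ℝ≥0∞} (h : ∀ n, 2 ^ n * a n ≤ C) :
    ∑' n, a n ≤ 2 * C := by
  have h1 : ∀ n, a n ≤ C * 2⁻¹ ^ n := by
    intro n
    have h2 : a n = 2⁻¹ ^ n * (2 ^ n * a n) := by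
      rw [← mul_assoc, ← mul_pow, ENNReal.inv_mul_cancel (by norm_num) (by norm_num), one_pow, one_mul]
    rw [h2, mul_comm C]
    exact mul_le_mul' le_rfl (h n)
  calc ∑' n, a n ≤ ∑' n, C * 2⁻¹ ^ n := ENNReal.tsum_le_tsum h1
    _ = C * 2 := by rw [ENNReal.tsum_mul_left, ENNReal.tsum_geometric_two]
    _ = 2 * C := mul_comm _ _

theorem KS_le_mul {V : Type} {ta P : V → V → ℝ≥0∞} {w w' : V → ℝ≥0∞} {c : ℝ≥0∞}
    (h : ∀ u, w u ≤ c * w' u) (n : ℕ) (x y : V) : KS ta P w n x y ≤ c * KS ta P w' n x y := by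
  rw [KS_eq, KS_eq, ← ENNReal.tsum_mul_left]
  refine ENNReal.tsum_le_tsum fun t => ?_
  rw [← ENNReal.tsum_mul_left]
  refine ENNReal.tsum_le_tsum fun u => ?_
  calc (ta x t * ta t u * ta y u + ta x u * ta y t * ta t u) * FF ta P w n t u
      ≤ (ta x t * ta t u * ta y u + ta x u * ta y t * ta t u) * (c * FF ta P w' n t u) := by
        refine mul_le_mul' le_rfl ?_
        rw [← FF_mul]
        exact FF_mono h n t u
    _ = _ := by ring

variable {d : ℕ}

/-- the hypotheses on `p`, `q` and the dimension -/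
structure FWH (d N : ℕ) (p : ℝ) (q X : ℝ≥0∞) : Prop where
  p0 : 0 ≤ p
  p2 : p ≤ 1 / 2
  ker : Ker ((Zg d).tK p) ((Zg d).pK p) q
  q4 : 4000 * q ≤ 1
  eb : EB ((Zg d).tK p) (kt (wn d N)) (kt (wn d N)) X
  X1 : X ≠ ∞

namespace FWH

variable {N : ℕ} {p : ℝ} {q X : ℝ≥0∞}

theorem q1 (H : FWH d N p q X) : 1000 * q ≤ 1 := by
  refine le_trans ?_ H.q4
  gcongr
  norm_num

theorem qa (H : FWH d N p q X) : 1000 * (2 * 2 * q) ≤ 1 := by
  refine le_trans (le_of_eq ?_) H.q4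
  ring

theorem row (H : FWH d N p q X) (x : Fin d → ℤ) : ∑' y, (Zg d).pK p x y ≤ 2 * d :=
  pK_row_Zg d H.p0 (by linarith [H.p2]) x

theorem q_ne_top (H : FWH d N p q X) : q ≠ ∞ := by
  intro h
  have := H.q4
  rw [h, ENNReal.mul_top (by norm_num)] at this
  exact absurd this (by simp)

/-- bound of the diagrams with the two weights at a fixed point -/
theorem kk (H : FWH d N p q X) (v a : Fin d → ℤ) (n : ℕ) :
    2 ^ n * KK ((Zg d).tK p) ((Zg d).pK p) (fun u => kt (wn d N) v u * kt (wn d N) a u) n v a ≤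
      KPC 2 (cw N) 2 (cw N) (2 ^ N) (2 * d) q X :=
  H.ker.KK_EB H.q1 (Wgt_wn d N) (Wgt_wn d N) H.qa (pK_wn d N p) (pK_wn d N p) H.row H.eb n v a

theorem kk_ne_top (H : FWH d N p q X) : KPC 2 (cw N) 2 (cw N) (2 ^ N) (2 * d) q X ≠ ∞ :=
  KPC_ne_top (by norm_num) (cw_ne_top N) (by norm_num) (cw_ne_top N)
    (ENNReal.pow_ne_top (by norm_num)) (ENNReal.mul_ne_top (by norm_num) (ENNReal.natCast_ne_top d))
    H.q_ne_top H.X1

/-- bound of the start diagrams -/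
theorem ks (H : FWH d N p q X) (x y : Fin d → ℤ) (n : ℕ) :
    2 ^ n * KS ((Zg d).tK p) ((Zg d).pK p) (fun u => kt (wn d N) x u * kt (wn d N) y u) n x y ≤
      Ker.KC 2 (cw N) 2 (cw N) q (EC 2 (cw N) 2 (cw N) (2 ^ N) (2 * d) X)
        (EC 2 (cw N) 2 (cw N) (2 ^ N) (2 * d) X) (EC 2 (cw N) 2 (cw N) (2 ^ N) (2 * d) X) :=
  H.ker.KS_EB H.q1 (Wgt_wn d N) (Wgt_wn d N) H.qa (pK_wn d N p) (pK_wn d N p) H.row H.eb n x y

/-- the constant of `ks` -/
def SC (d N : ℕ) (q X : ℝ≥0∞) : ℝ≥0∞ :=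
  Ker.KC 2 (cw N) 2 (cw N) q (EC 2 (cw N) 2 (cw N) (2 ^ N) (2 * d) X)
    (EC 2 (cw N) 2 (cw N) (2 ^ N) (2 * d) X) (EC 2 (cw N) 2 (cw N) (2 ^ N) (2 * d) X)

theorem SC_ne_top (H : FWH d N p q X) : SC d N q X ≠ ∞ := by
  have h1 : EC 2 (cw N) 2 (cw N) (2 ^ N) (2 * d) X ≠ ∞ :=
    EC_ne_top (by norm_num) (cw_ne_top N) (by norm_num) (cw_ne_top N)
      (ENNReal.pow_ne_top (by norm_num)) (ENNReal.mul_ne_top (by norm_num) (ENNReal.natCast_ne_top d))
      H.X1
  exact Ker.KC_ne_top (by norm_num) (cw_ne_top N) (by norm_num) (cw_ne_top N) H.q_ne_top h1 h1 h1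

/-- **(Z2)** start vertex `v`, finite set `A` -/
theorem z2 (H : FWH d N p q X) (v : Fin d → ℤ) (A : Finset (Fin d → ℤ)) :
    ∑' n, ∑' u, wn d (2 * N) u * ZZ (Zg d) p n {v} (A : Set (Fin d → ℤ)) u ≤
      ∑ a ∈ A, wn d N v * wn d N a * (2 * KPC 2 (cw N) 2 (cw N) (2 ^ N) (2 * d) q X) := by
  calc ∑' n, ∑' u, wn d (2 * N) u * ZZ (Zg d) p n {v} (A : Set (Fin d → ℤ)) u
      ≤ ∑' n, ∑ a ∈ A, KK ((Zg d).tK p) ((Zg d).pK p) (wn d (2 * N)) n v a :=
        ENNReal.tsum_le_tsum fun n => ZZ_vertex_le_finset (Zg d) H.p0 H.p2 _ n v A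
    _ = ∑ a ∈ A, ∑' n, KK ((Zg d).tK p) ((Zg d).pK p) (wn d (2 * N)) n v a :=
        Summable.tsum_finsetSum fun a _ => ENNReal.summable
    _ ≤ _ := by
        refine Finset.sum_le_sum fun a _ => ?_
        calc ∑' n, KK ((Zg d).tK p) ((Zg d).pK p) (wn d (2 * N)) n v a
            ≤ ∑' n, wn d N v * wn d N a * KK ((Zg d).tK p) ((Zg d).pK p)
                (fun u => kt (wn d N) v u * kt (wn d N) a u) n v a := by
              refine ENNReal.tsum_le_tsum fun n => ?_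
              rw [← KK_mul]
              exact KK_mono (fun u => wn_split N v a u) n v a
          _ = wn d N v * wn d N a * ∑' n, KK ((Zg d).tK p) ((Zg d).pK p)
                (fun u => kt (wn d N) v u * kt (wn d N) a u) n v a := ENNReal.tsum_mul_left
          _ ≤ _ := mul_le_mul' le_rfl (tsum_of_two_pow fun n => H.kk v a n)

theorem z2_lt_top (H : FWH d N p q X) (v : Fin d → ℤ) (A : Finset (Fin d → ℤ)) :
    ∑' n, ∑' u, wn d (2 * N) u * ZZ (Zg d) p n {v} (A : Set (Fin d → ℤ)) u < ∞ := by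
  refine lt_of_le_of_lt (H.z2 v A) ?_
  refine ENNReal.sum_lt_top.2 fun a _ => ?_
  exact ENNReal.mul_lt_top (ENNReal.mul_lt_top (wn_ne_top N v).lt_top (wn_ne_top N a).lt_top)
    (ENNReal.mul_lt_top (by norm_num) H.kk_ne_top.lt_top)

/-- the term of order `0` of a start set -/
theorem z1_zero (H : FWH d N p q X) {F : Finset (Fin d → ℤ)} (hF : F.Nonempty) :
    ∑' u, wn d (2 * N) u * ZZ (Zg d) p 0 F Set.univ u ≤
      ∑ x ∈ F, ∑ y ∈ F, wn d N x * wn d N y * X := by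
  calc ∑' u, wn d (2 * N) u * ZZ (Zg d) p 0 F Set.univ u
      ≤ ∑' u, ∑ x ∈ F, ∑ y ∈ F, wn d (2 * N) u * ((Zg d).tK p x u * (Zg d).tK p y u) := by
        refine ENNReal.tsum_le_tsum fun u => ?_
        calc wn d (2 * N) u * ZZ (Zg d) p 0 F Set.univ u
            ≤ wn d (2 * N) u * ∑ x ∈ F, ∑ y ∈ F, (Zg d).tK p x u * (Zg d).tK p y u :=
              mul_le_mul' le_rfl (ZZ_start_zero_le (Zg d) H.p0 H.p2 hF u)
          _ = _ := by
              rw [Finset.mul_sum]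
              exact Finset.sum_congr rfl fun x _ => Finset.mul_sum _ _ _
    _ = ∑ x ∈ F, ∑ y ∈ F, ∑' u, wn d (2 * N) u * ((Zg d).tK p x u * (Zg d).tK p y u) := by
        rw [Summable.tsum_finsetSum fun x _ => ENNReal.summable]
        exact Finset.sum_congr rfl fun x _ => Summable.tsum_finsetSum fun y _ => ENNReal.summable
    _ ≤ _ := by
        refine Finset.sum_le_sum fun x _ => Finset.sum_le_sum fun y _ => ?_
        calc ∑' u, wn d (2 * N) u * ((Zg d).tK p x u * (Zg d).tK p y u)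
            ≤ ∑' u, wn d N x * wn d N y * (kt (wn d N) x u * kt (wn d N) y u *
                ((Zg d).tK p x u * (Zg d).tK p y u)) := by
              refine ENNReal.tsum_le_tsum fun u => ?_
              refine (mul_le_mul' (wn_split N x y u) le_rfl).trans (le_of_eq ?_)
              ring
          _ = wn d N x * wn d N y * ∑' u, kt (wn d N) x u * kt (wn d N) y u *
                ((Zg d).tK p x u * (Zg d).tK p y u) := ENNReal.tsum_mul_left
          _ ≤ wn d N x * wn d N y * X :=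
              mul_le_mul' le_rfl (zero_fg H.ker.symm H.ker.one_le (Wgt_wn d N).symm H.eb x y)

/-- **(Z1)** start set `F` -/
theorem z1 (H : FWH d N p q X) {F : Finset (Fin d → ℤ)} (hF : F.Nonempty) :
    ∑' n, ∑' u, wn d (2 * N) u * ZZ (Zg d) p n F Set.univ u ≤
      (∑ x ∈ F, ∑ y ∈ F, wn d N x * wn d N y * X) +
        ∑ x ∈ F, ∑ y ∈ F, wn d N x * wn d N y * (2 * SC d N q X) := by
  rw [tsum_eq_zero_add' ENNReal.summable]
  refine add_le_add (H.z1_zero hF) ?_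
  calc ∑' n, ∑' u, wn d (2 * N) u * ZZ (Zg d) p (n + 1) F Set.univ u
      ≤ ∑' n, ∑ x ∈ F, ∑ y ∈ F, KS ((Zg d).tK p) ((Zg d).pK p) (wn d (2 * N)) n x y :=
        ENNReal.tsum_le_tsum fun n => ZZ_start_le (Zg d) H.p0 H.p2 _ n F
    _ = ∑ x ∈ F, ∑ y ∈ F, ∑' n, KS ((Zg d).tK p) ((Zg d).pK p) (wn d (2 * N)) n x y := by
        rw [Summable.tsum_finsetSum fun x _ => ENNReal.summable]
        exact Finset.sum_congr rfl fun x _ => Summable.tsum_finsetSum fun y _ => ENNReal.summable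
    _ ≤ _ := by
        refine Finset.sum_le_sum fun x _ => Finset.sum_le_sum fun y _ => ?_
        calc ∑' n, KS ((Zg d).tK p) ((Zg d).pK p) (wn d (2 * N)) n x y
            ≤ ∑' n, wn d N x * wn d N y * KS ((Zg d).tK p) ((Zg d).pK p)
                (fun u => kt (wn d N) x u * kt (wn d N) y u) n x y := by
              exact ENNReal.tsum_le_tsum fun n => KS_le_mul (fun u => wn_split N x y u) n x y
          _ = wn d N x * wn d N y * ∑' n, KS ((Zg d).tK p) ((Zg d).pK p)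
                (fun u => kt (wn d N) x u * kt (wn d N) y u) n x y := ENNReal.tsum_mul_left
          _ ≤ _ := mul_le_mul' le_rfl (tsum_of_two_pow fun n => H.ks x y n)

theorem z1_lt_top (H : FWH d N p q X) {F : Finset (Fin d → ℤ)} (hF : F.Nonempty) :
    ∑' n, ∑' u, wn d (2 * N) u * ZZ (Zg d) p n F Set.univ u < ∞ := by
  refine lt_of_le_of_lt (H.z1 hF) ?_
  refine ENNReal.add_lt_top.2 ⟨?_, ?_⟩
  · refine ENNReal.sum_lt_top.2 fun x _ => ENNReal.sum_lt_top.2 fun y _ => ?_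
    exact ENNReal.mul_lt_top (ENNReal.mul_lt_top (wn_ne_top N x).lt_top (wn_ne_top N y).lt_top)
      H.X1.lt_top
  · refine ENNReal.sum_lt_top.2 fun x _ => ENNReal.sum_lt_top.2 fun y _ => ?_
    exact ENNReal.mul_lt_top (ENNReal.mul_lt_top (wn_ne_top N x).lt_top (wn_ne_top N y).lt_top)
      (ENNReal.mul_lt_top (by norm_num) H.SC_ne_top.lt_top)

end FWH

end IPC
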