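import Pool.Agent.Lib.MP_25e40f_pr.C.Kbd

/-!
# MP_25e40f_pr, stream W: monotone limits of products of kernels
-/

set_option autoImplicit false

open scoped ENNReal

namespace IPC

variable {V : Type}

/-- pointwise supremum of a sequence of kernels -/
noncomputable def ksupr (k : ℕ → V → V → ℝ≥0∞) : V → V → ℝ≥0∞ := fun x y => ⨆ j, k j x y

/-- nondecreasing sequences of kernels -/
def KMono (k : ℕ → V → V → ℝ≥0∞) : Prop := ∀ x y, Monotone fun j => k j x y

theorem tsum_iSup_mono {α : Type} {f : ℕ → α → ℝ≥0∞} (hf : ∀ x, Monotone fun j => f j x) :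
    ∑' x, ⨆ j, f j x = ⨆ j, ∑' x, f j x := by
  rw [ENNReal.tsum_eq_iSup_sum]
  calc ⨆ s : Finset α, ∑ x ∈ s, ⨆ j, f j x = ⨆ s : Finset α, ⨆ j, ∑ x ∈ s, f j x := by
        refine iSup_congr fun s => ?_
        exact ENNReal.finsetSum_iSup_of_monotone fun x => hf x
    _ = ⨆ j, ⨆ s : Finset α, ∑ x ∈ s, f j x := iSup_comm
    _ = ⨆ j, ∑' x, f j x := iSup_congr fun j => ENNReal.tsum_eq_iSup_sum.symm

theorem iSup_mul_mono {f g : ℕ → ℝ≥0∞} (hf : Monotone f) (hg : Monotone g) :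
    (⨆ j, f j) * (⨆ j, g j) = ⨆ j, f j * g j := by
  refine le_antisymm ?_ (iSup_le fun j => mul_le_mul' (le_iSup f j) (le_iSup g j))
  rw [ENNReal.iSup_mul]
  refine iSup_le fun i => ?_
  rw [ENNReal.mul_iSup]
  refine iSup_le fun j => ?_
  exact (mul_le_mul' (hf (le_max_left i j)) (hg (le_max_right i j))).trans
    (le_iSup (fun j => f j * g j) (max i j))

theorem KMono.mm {k l : ℕ → V → V → ℝ≥0∞} (hk : KMono k) (hl : KMono l) :
    KMono fun j => mm (k j) (l j) :=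
  fun x y _ _ hij => mm_mono (fun x y => hk x y hij) (fun x y => hl x y hij) x y

theorem KMono.wt {k : ℕ → V → V → ℝ≥0∞} (hk : KMono k) (w : V → V → ℝ≥0∞) :
    KMono fun j => wt w (k j) :=
  fun x y _ _ hij => mul_le_mul' le_rfl (hk x y hij)

theorem mm_ksupr {k l : ℕ → V → V → ℝ≥0∞} (hk : KMono k) (hl : KMono l) :
    mm (ksupr k) (ksupr l) = ksupr fun j => mm (k j) (l j) := by
  funext x y
  unfold mm ksupr
  rw [← tsum_iSup_mono]
  · exact tsum_congr fun z => iSup_mul_mono (hk x z) (hl z y)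
  · exact fun z i j hij => mul_le_mul' (hk x z hij) (hl z y hij)

theorem wt_ksupr (w : V → V → ℝ≥0∞) (k : ℕ → V → V → ℝ≥0∞) :
    wt w (ksupr k) = ksupr fun j => wt w (k j) := by
  funext x y
  unfold wt ksupr
  rw [ENNReal.mul_iSup]

theorem ch4_ksupr {a b c d : ℕ → V → V → ℝ≥0∞} (ha : KMono a) (hb : KMono b) (hc : KMono c)
    (hd : KMono d) : ch4 (ksupr a) (ksupr b) (ksupr c) (ksupr d) =
      ksupr fun j => ch4 (a j) (b j) (c j) (d j) := by
  unfold ch4
  rw [mm_ksupr hc hd, mm_ksupr hb (hc.mm hd), mm_ksupr ha (hb.mm (hc.mm hd))]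

theorem ksupr_le {k : ℕ → V → V → ℝ≥0∞} {X : ℝ≥0∞} (h : ∀ j x y, k j x y ≤ X) (x y : V) :
    ksupr k x y ≤ X :=
  iSup_le fun j => h j x y

theorem ch4_ksupr_le {a b c d : ℕ → V → V → ℝ≥0∞} (ha : KMono a) (hb : KMono b) (hc : KMono c)
    (hd : KMono d) {X : ℝ≥0∞} (h : ∀ j x y, ch4 (a j) (b j) (c j) (d j) x y ≤ X) (x y : V) :
    ch4 (ksupr a) (ksupr b) (ksupr c) (ksupr d) x y ≤ X := by
  rw [ch4_ksupr ha hb hc hd]
  exact ksupr_le h x y

/-- the chain bounds pass to the limit -/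
theorem EB_ksupr {k : ℕ → V → V → ℝ≥0∞} {f g : V → V → ℝ≥0∞} {X : ℝ≥0∞} (hk : KMono k)
    (h : ∀ j, EB (k j) f g X) : EB (ksupr k) f g X := by
  constructor
  · simp only [wt_ksupr]
    exact ch4_ksupr_le (hk.wt f) hk hk hk fun j => (h j).f0
  · simp only [wt_ksupr]
    exact ch4_ksupr_le hk (hk.wt f) hk hk fun j => (h j).f1
  · simp only [wt_ksupr]
    exact ch4_ksupr_le hk hk hk (hk.wt f) fun j => (h j).f3
  · simp only [wt_ksupr]
    exact ch4_ksupr_le (hk.wt g) hk hk hk fun j => (h j).g0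
  · simp only [wt_ksupr]
    exact ch4_ksupr_le hk (hk.wt g) hk hk fun j => (h j).g1
  · simp only [wt_ksupr]
    exact ch4_ksupr_le hk hk hk (hk.wt g) fun j => (h j).g3
  · simp only [wt_ksupr]
    exact ch4_ksupr_le (hk.wt f) hk hk (hk.wt g) fun j => (h j).f0g3
  · simp only [wt_ksupr]
    exact ch4_ksupr_le hk (hk.wt f) hk (hk.wt g) fun j => (h j).f1g3
  · simp only [wt_ksupr]
    exact ch4_ksupr_le (hk.wt g) hk hk (hk.wt f) fun j => (h j).g0f3
  · simp only [wt_ksupr]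
    exact ch4_ksupr_le hk (hk.wt g) hk (hk.wt f) fun j => (h j).g1f3
  · exact ch4_ksupr_le hk hk hk hk fun j => (h j).one

end IPC
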