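import Pool.Agent.Lib.MP_25e40f_pr.C.Kpt
import Pool.Agent.Lib.MP_25e40f_pr.C.Kconv
import Pool.Agent.Lib.MP_25e40f_pr.C.EFin

/-!
# MP_25e40f_pr, stream W: the weights `(1 + |x - y|)^N` on `ℤᵈ`
-/

set_option autoImplicit false

noncomputable section

open Finset Filter
open scoped ENNReal Classical

namespace IPC

/-- `(s + t)^b ≤ 2 s^b + (1 + 2 b)^b t^b` -/
theorem add_pow_le_two {s t : ℝ} (hs : 0 ≤ s) (ht : 0 ≤ t) (b : ℕ) :
    (s + t) ^ b ≤ 2 * s ^ b + (1 + 2 * b) ^ b * t ^ b := by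
  rcases Nat.eq_zero_or_pos b with rfl | hb
  · norm_num
  have hb' : (0 : ℝ) < b := by exact_mod_cast hb
  by_cases h : 2 * b * t ≤ s
  · have h1 : s + t ≤ s * (1 + 1 / (2 * b)) := by
      have : t ≤ s * (1 / (2 * b)) := by
        rw [mul_one_div, le_div_iff₀ (by positivity)]
        linarith
      linarith
    have h2 : (1 + 1 / (2 * b) : ℝ) ^ b ≤ 2 := by
      have h3 : (1 + 1 / (2 * b) : ℝ) ≤ Real.exp (1 / (2 * b)) := by
        have := Real.add_one_le_exp (1 / (2 * b) : ℝ)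
        linarith
      calc (1 + 1 / (2 * b) : ℝ) ^ b ≤ Real.exp (1 / (2 * b)) ^ b :=
            pow_le_pow_left₀ (by positivity) h3 b
        _ = Real.exp (b * (1 / (2 * b))) := (Real.exp_nat_mul _ _).symm
        _ = Real.exp (1 / 2) := by
            congr 1
            field_simp
        _ ≤ 2 := by
            have h4 : Real.exp (1 / 2) ^ 2 = Real.exp 1 := by
              rw [← Real.exp_nat_mul]
              norm_num
            have h5 := Real.exp_one_lt_d9
            nlinarith [Real.exp_pos (1 / 2)]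
    calc (s + t) ^ b ≤ (s * (1 + 1 / (2 * b))) ^ b := pow_le_pow_left₀ (by positivity) h1 b
      _ = s ^ b * (1 + 1 / (2 * b)) ^ b := mul_pow _ _ _
      _ ≤ s ^ b * 2 := mul_le_mul_of_nonneg_left h2 (by positivity)
      _ ≤ 2 * s ^ b + (1 + 2 * b) ^ b * t ^ b := by
          have : 0 ≤ (1 + 2 * b : ℝ) ^ b * t ^ b := by positivity
          linarith
  · push Not at h
    have h1 : s + t ≤ (1 + 2 * b) * t := by nlinarith
    calc (s + t) ^ b ≤ ((1 + 2 * b) * t) ^ b := pow_le_pow_left₀ (by positivity) h1 b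
      _ = (1 + 2 * b) ^ b * t ^ b := mul_pow _ _ _
      _ ≤ 2 * s ^ b + (1 + 2 * b) ^ b * t ^ b := by
          have : 0 ≤ 2 * s ^ b := by positivity
          linarith

variable {d : ℕ}

/-- the weight `(1 + |x|)^N` on `ℤᵈ` -/
def wn (d N : ℕ) : (Fin d → ℤ) → ℝ≥0∞ := fun x => ENNReal.ofReal ((1 + ‖x‖) ^ N)

theorem wn_ne_top (N : ℕ) (x : Fin d → ℤ) : wn d N x ≠ ∞ := ENNReal.ofReal_ne_top

theorem one_le_wn (N : ℕ) (x : Fin d → ℤ) : 1 ≤ wn d N x := by
  unfold wn
  rw [ENNReal.one_le_ofReal]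
  exact one_le_pow₀ (by linarith [norm_nonneg x])

theorem wn_add (N M : ℕ) (x : Fin d → ℤ) : wn d (N + M) x = wn d N x * wn d M x := by
  unfold wn
  rw [pow_add, ENNReal.ofReal_mul (by positivity)]

theorem wn_mono {N M : ℕ} (h : N ≤ M) (x : Fin d → ℤ) : wn d N x ≤ wn d M x := by
  unfold wn
  exact ENNReal.ofReal_le_ofReal (pow_le_pow_right₀ (by linarith [norm_nonneg x]) h)

/-- the constant in the quasi triangle inequality -/
def cw (N : ℕ) : ℝ≥0∞ := ENNReal.ofReal ((1 + 2 * N) ^ N)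

theorem cw_ne_top (N : ℕ) : cw N ≠ ∞ := ENNReal.ofReal_ne_top

theorem Wgt_wn (d N : ℕ) : Wgt (kt (wn d N)) 2 (cw N) where
  symm x y := by
    rw [kt_apply, kt_apply, wn, wn, ← norm_neg, neg_sub]
  one_le := by norm_num
  qt x y z := by
    rw [kt_apply, kt_apply, kt_apply]
    unfold wn cw
    have h1 : 1 + ‖z - x‖ ≤ (1 + ‖z - y‖) + (1 + ‖y - x‖) := by
      have := norm_add_le (z - y) (y - x)
      rw [sub_add_sub_cancel] at this
      linarith
    calc ENNReal.ofReal ((1 + ‖z - x‖) ^ N)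
        ≤ ENNReal.ofReal (2 * (1 + ‖z - y‖) ^ N + (1 + 2 * N) ^ N * (1 + ‖y - x‖) ^ N) := by
          refine ENNReal.ofReal_le_ofReal ?_
          refine (pow_le_pow_left₀ (by positivity) h1 N).trans ?_
          exact add_pow_le_two (by positivity) (by positivity) N
      _ = 2 * ENNReal.ofReal ((1 + ‖z - y‖) ^ N)
          + ENNReal.ofReal ((1 + 2 * N) ^ N) * ENNReal.ofReal ((1 + ‖y - x‖) ^ N) := by
          rw [ENNReal.ofReal_add (by positivity) (by positivity), ENNReal.ofReal_mul (by norm_num),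
            ENNReal.ofReal_mul (by positivity)]
          norm_num

theorem norm_sub_le_one {x z : Fin d → ℤ} (h : z ∈ (Zg d).nb x) : ‖z - x‖ ≤ 1 := by
  have h' : z ∈ nbZ d x := h
  rw [mem_nbZ] at h'
  obtain ⟨i, s, hs, rfl⟩ := h'
  rw [pi_norm_le_iff_of_nonneg (by norm_num)]
  intro j
  by_cases hj : j = i
  · subst hj
    rw [Pi.sub_apply, Function.update_self, add_sub_cancel_left]
    rcases hs with rfl | rfl <;> norm_num
  · rw [Pi.sub_apply, Function.update_of_ne hj, sub_self, norm_zero]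
    norm_num

theorem pK_wn (d N : ℕ) (p : ℝ) (x z : Fin d → ℤ) :
    (Zg d).pK p x z * kt (wn d N) x z ≤ 2 ^ N * (Zg d).pK p x z := by
  unfold PG.pK
  by_cases h : z ∈ (Zg d).nb x
  · rw [if_pos h, mul_comm]
    refine mul_le_mul' ?_ le_rfl
    rw [kt_apply, wn]
    calc ENNReal.ofReal ((1 + ‖z - x‖) ^ N) ≤ ENNReal.ofReal (2 ^ N) := by
          refine ENNReal.ofReal_le_ofReal (pow_le_pow_left₀ (by positivity) ?_ N)
          linarith [norm_sub_le_one h]
      _ = 2 ^ N := by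
          rw [ENNReal.ofReal_pow (by norm_num)]
          norm_num
  · rw [if_neg h]
    simp

theorem DegLe_Zg (d : ℕ) : (Zg d).DegLe (2 * d) := by
  intro x
  change (nbZ d x).card ≤ 2 * d
  unfold nbZ
  refine Finset.card_image_le.trans ?_
  rw [Finset.card_univ, Fintype.card_prod, Fintype.card_fin, Fintype.card_bool, mul_comm]

theorem pK_row_Zg (d : ℕ) {p : ℝ} (h0 : 0 ≤ p) (h1 : p ≤ 1) (x : Fin d → ℤ) :
    ∑' y, (Zg d).pK p x y ≤ 2 * d := by
  refine (pK_row (Zg d) h0 (DegLe_Zg d) x).trans ?_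
  calc ENNReal.ofReal (((2 * d : ℕ) : ℝ) * p) ≤ ENNReal.ofReal ((2 * d : ℕ) : ℝ) := by
        refine ENNReal.ofReal_le_ofReal ?_
        exact mul_le_of_le_one_right (Nat.cast_nonneg _) h1
    _ = 2 * d := by
        rw [ENNReal.ofReal_natCast]
        push_cast
        rfl

/-- `(1+|u|)^(2N) ≤ (1+|x|)^N (1+|y|)^N (1+|u-x|)^N (1+|u-y|)^N` -/
theorem wn_split (N : ℕ) (x y u : Fin d → ℤ) :
    wn d (2 * N) u ≤ wn d N x * wn d N y * (kt (wn d N) x u * kt (wn d N) y u) := by
  have key : ∀ x : Fin d → ℤ, wn d N u ≤ wn d N x * kt (wn d N) x u := by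
    intro x
    rw [kt_apply]
    unfold wn
    rw [← ENNReal.ofReal_mul (by positivity), ← mul_pow]
    refine ENNReal.ofReal_le_ofReal (pow_le_pow_left₀ (by positivity) ?_ N)
    have := norm_add_le x (u - x)
    rw [add_sub_cancel] at this
    nlinarith [norm_nonneg x, norm_nonneg (u - x)]
  calc wn d (2 * N) u = wn d N u * wn d N u := by rw [two_mul, wn_add]
    _ ≤ (wn d N x * kt (wn d N) x u) * (wn d N y * kt (wn d N) y u) := mul_le_mul' (key x) (key y)
    _ = _ := by ring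

end IPC
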